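import Pool.Agent.NH97.Band.Main

/-!
# MP_1500ab_co: a prismoid all of whose band unfoldings overlap

The base is the hexagon (0,0), (81,0), (201,22), (168,78), (90,182), (24,70); the top, in the plane
of height 3, is obtained by moving the six edge lines of the base inwards by 4, so that each lateral
face has width 5. For every choice of the cut side edge and of the edge of the base which is not
cut, the developed base overlaps a developed lateral face in interior points.
-/

set_option autoImplicit false

namespace Pool.Agent.Results.MP_1500ab_co.AllBandsOverlap

open Pool.Agent.NH97.Band

/-- There is a prismoid (with hexagonal top and base) which has no nonoverlapping band unfolding: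
for every choice of the cut side edge `(a_i, b_i)` and of the uncut edges `(a_j, a_(j+1))`,
`(b_k, b_(k+1))` the band unfolding is not a net. -/
theorem result : ∃ P : Prismoid 6, ∀ i j k : Fin 6,
    ¬ ∃ φ : Face 6 → E3 → ℂ, IsBandNet P i j k φ :=
  exists_prismoid

end Pool.Agent.Results.MP_1500ab_co.AllBandsOverlap
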